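import Pool.Agent.RHO.Stmts3

/-!
# MP_ca8ef3_an, stage 2, row ORD: the order of a functional
-/

set_option autoImplicit false

namespace Pool.Agent.RHO.H25c

open Finset Pool.Agent.RHO

theorem van_of_mon {ι : Type} [Fintype ι] [DecidableEq ι] {τ : Fn ι} {d : ℕ}
    (h : ∀ A : Finset ι, A.card ≤ d → pr τ (mon A) = 0) : Van τ d := by
  intro f hf
  induction hf using Submodule.span_induction with
  | mem x hx =>
    obtain ⟨A, hA, rfl⟩ := hx
    exact h A hA
  | zero => simp [pr]
  | add x y _ _ hx hy =>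
    have h1 : pr τ (x + y) = pr τ x + pr τ y := by
      simp only [pr, Pi.add_apply, mul_add, Finset.sum_add_distrib]
    rw [h1, hx, hy, add_zero]
  | smul c x _ hx =>
    have h1 : pr τ (c • x) = c * pr τ x := by
      simp only [pr, Pi.smul_apply, smul_eq_mul, Finset.mul_sum]
      exact Finset.sum_congr rfl fun z _ => by ring
    rw [h1, hx, mul_zero]

theorem ord : ORDStmt := by
  intro ι _ _ τ d hτ
  classical
  have hex : ∃ n : ℕ, ∃ B : Finset ι, B.card = n ∧ pr τ (mon B) ≠ 0 := by
    by_contra h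
    push Not at h
    exact hτ (van_of_mon fun A _ => h A.card A rfl)
  obtain ⟨B, hB, hB1⟩ := Nat.find_spec hex
  have hmin : ∀ A : Finset ι, A.card < B.card → pr τ (mon A) = 0 := by
    intro A hA
    by_contra h
    exact Nat.find_min hex (hB ▸ hA) ⟨A, rfl, h⟩
  have hd : B.card ≤ d := by
    by_contra h
    exact hτ (van_of_mon fun A hA => hmin A (by omega))
  have h1 : ∀ c : ZMod 2, c ≠ 0 → c = 1 := by decide
  exact ⟨B, hd, h1 _ hB1, fun e he => van_of_mon fun A hA => hmin A (by omega)⟩

end Pool.Agent.RHO.H25c
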